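import Pool.Agent.Y958.SP.Stm3
import Pool.Agent.Y447.SP.Ind

/-! # Project SP: few random elements of a sparse set -/

set_option autoImplicit false

namespace Pool.Agent.Y961.SP

open Finset
open Pool.Agent.Y958.SP (nn ph)
open Pool.Agent.Y447.SP

theorem nn_sub_sq (x y : ℝ) : nn (x - y) ^ 2 ≤ 2 * nn x ^ 2 + 2 * nn y ^ 2 := by
  have h : nn (x - y) ≤ nn x + nn y := by
    unfold nn
    have h1 := round_le (x - y) (round x - round y)
    refine h1.trans ?_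
    have h2 : x - y - ((round x - round y : ℤ) : ℝ) = (x - round x) - (y - round y) := by
      push_cast
      ring
    rw [h2]
    exact abs_sub _ _
  have h0 : 0 ≤ nn (x - y) := nn_nonneg _
  have h3 : nn (x - y) ^ 2 ≤ (nn x + nn y) ^ 2 := pow_le_pow_left₀ h0 h 2
  nlinarith [sq_nonneg (nn x - nn y)]

theorem t_RND : Pool.Agent.Y958.SP.RND := by
  classical
  intro K J a c ε α hK hε ha h
  have hJ0 : (0 : ℝ) < (J : ℝ) + 1 := by positivity
  have hprod : (fun _ : Fin K → Fin (J + 1) => 1 / ((J : ℝ) + 1) ^ K) =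
      fun ω : Fin K → Fin (J + 1) => ∏ i : Fin K, (fun (_ : Fin K) (_ : Fin (J + 1)) =>
        1 / ((J : ℝ) + 1)) i (ω i) := by
    funext ω
    simp only [prod_const, card_univ, Fintype.card_fin]
    rw [one_div, one_div, inv_pow]
  rw [hprod] at h
  have h1 := en_bound (fun (_ : Fin K) (_ : Fin (J + 1)) => 1 / ((J : ℝ) + 1))
    (fun (_ : Fin K) (k : Fin (J + 1)) => ((a k : ℕ) : ℤ)) c α (Real.exp (-(K * ε)))
    (fun _ _ => by positivity)
    (fun _ => by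
      rw [sum_const, card_univ, Fintype.card_fin, nsmul_eq_mul]
      push_cast
      field_simp) (Real.exp_pos _) h
  have hlog : Real.log (1 / Real.exp (-(K * ε))) = K * ε := by
    rw [one_div, Real.log_inv, Real.log_exp, neg_neg]
  rw [hlog, sum_const, card_univ, Fintype.card_fin, nsmul_eq_mul] at h1
  have hK0 : (0 : ℝ) < K := by exact_mod_cast hK
  obtain ⟨E, hE⟩ : ∃ E, E = en (fun _ : Fin (J + 1) => 1 / ((J : ℝ) + 1))
    (fun k : Fin (J + 1) => ((a k : ℕ) : ℤ)) α := ⟨_, rfl⟩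
  have h2 : 4 * E ≤ ε := by
    have h3 : K * (4 * E) ≤ K * ε := by
      rw [hE]
      linarith
    exact le_of_mul_le_mul_left h3 hK0
  -- the double sum
  have h3 : ∑ l : Fin (J + 1), ∑ k : Fin (J + 1),
      nn (α * (((a l : ℤ) - (a k : ℤ) : ℤ) : ℝ)) ^ 2 ≤ (J + 1) * (ε / 4 * (J + 1)) := by
    have h4 : E = 1 / ((J : ℝ) + 1) ^ 2 * ∑ l : Fin (J + 1), ∑ k : Fin (J + 1),
        nn (α * (((a l : ℤ) - (a k : ℤ) : ℤ) : ℝ)) ^ 2 := by
      rw [hE]
      unfold en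
      rw [mul_sum]
      refine sum_congr rfl fun l _ => ?_
      rw [mul_sum]
      refine sum_congr rfl fun k _ => ?_
      congr 1
      show (1 / ((J : ℝ) + 1)) * (1 / ((J : ℝ) + 1)) = 1 / ((J : ℝ) + 1) ^ 2
      rw [one_div, one_div, sq, mul_inv]
    obtain ⟨D, hD⟩ : ∃ D : ℝ, D = ∑ l : Fin (J + 1), ∑ k : Fin (J + 1),
        nn (α * (((a l : ℤ) - (a k : ℤ) : ℤ) : ℝ)) ^ 2 := ⟨_, rfl⟩
    rw [← hD] at h4 ⊢
    have h5 : D = ((J : ℝ) + 1) ^ 2 * E := by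
      rw [h4]
      field_simp
    rw [h5]
    have h6 : E ≤ ε / 4 := by linarith
    calc ((J : ℝ) + 1) ^ 2 * E ≤ ((J : ℝ) + 1) ^ 2 * (ε / 4) :=
          mul_le_mul_of_nonneg_left h6 (by positivity)
      _ = _ := by ring
  obtain ⟨l, -, hl⟩ : ∃ l ∈ (univ : Finset (Fin (J + 1))), ∑ k : Fin (J + 1),
      nn (α * (((a l : ℤ) - (a k : ℤ) : ℤ) : ℝ)) ^ 2 ≤ ε / 4 * (J + 1) := by
    by_contra hcon
    push Not at hcon
    have h4 : ∑ _l : Fin (J + 1), (ε / 4 * ((J : ℝ) + 1)) < ∑ l : Fin (J + 1),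
        ∑ k : Fin (J + 1), nn (α * (((a l : ℤ) - (a k : ℤ) : ℤ) : ℝ)) ^ 2 :=
      sum_lt_sum_of_nonempty univ_nonempty hcon
    have e : ((J + 1 : ℕ) : ℝ) = (J : ℝ) + 1 := by
      push_cast
      rfl
    rw [sum_const, card_univ, Fintype.card_fin, nsmul_eq_mul, e] at h4
    linarith
  obtain ⟨F, hF⟩ : ∃ F : ℕ → ℝ, F = fun k => nn (α * ((a l : ℝ) - a k)) ^ 2 := ⟨_, rfl⟩
  have hF0 : ∀ k, 0 ≤ F k := fun k => by
    rw [hF]
    positivity
  have hFs : ∑ k ∈ range (J + 1), F k ≤ ε / 4 * (J + 1) := by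
    refine le_trans (le_of_eq ?_) hl
    rw [← Fin.sum_univ_eq_sum_range]
    refine sum_congr rfl fun k _ => ?_
    rw [hF]
    push_cast
    rfl
  have hstep : ∀ j ∈ range J, nn (α * (a (j + 1) - a j : ℕ)) ^ 2 ≤ 2 * F j + 2 * F (j + 1) := by
    intro j hj
    have h4 := nn_sub_sq (α * ((a l : ℝ) - a j)) (α * ((a l : ℝ) - a (j + 1)))
    have h5 : α * ((a l : ℝ) - a j) - α * ((a l : ℝ) - a (j + 1)) =
        α * (a (j + 1) - a j : ℕ) := by
      rw [Nat.cast_sub (ha j (mem_range.1 hj))]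
      ring
    rw [h5] at h4
    rw [hF]
    exact h4
  have h6 : ∑ j ∈ range J, F j ≤ ∑ k ∈ range (J + 1), F k := by
    rw [sum_range_succ]
    linarith [hF0 J]
  have h7 : ∑ j ∈ range J, F (j + 1) ≤ ∑ k ∈ range (J + 1), F k := by
    rw [sum_range_succ' F J]
    linarith [hF0 0]
  calc ∑ j ∈ range J, nn (α * (a (j + 1) - a j : ℕ)) ^ 2 ≤
        ∑ j ∈ range J, (2 * F j + 2 * F (j + 1)) := sum_le_sum hstep
    _ = 2 * ∑ j ∈ range J, F j + 2 * ∑ j ∈ range J, F (j + 1) := by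
        rw [sum_add_distrib, mul_sum, mul_sum]
    _ ≤ ε * (J + 1) := by linarith

end Pool.Agent.Y961.SP
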